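import Pool.Agent.V8H19.AP.Sums

/-!
# Bohr sets in `kA - kA` for few summands

Let `A ⊆ ℤ/N` have density `α ≤ 1/2`, `ℓ = log (1/α)` and `k ≥ 2`. The theorem says that `kA - kA` contains a Bohr set
of radius `1 / (C ℓ)` with at most `C ℓ (1 + (ℓ/k) log (2 + ℓ/k))` frequencies. In particular (`linear`) the conclusion
of Q1, `O (ℓ)` frequencies and radius at least `c / ℓ`, holds with `kA - kA` in place of `2A - 2A` as soon as
`k ≥ ℓ log (2 + ℓ)` (indeed for `k ≥ ℓ`). The starting file `ManySummands` needs `k ≥ C ℓ ^ 9` for this.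

Proof: by the pigeonhole principle there is `j ≤ k/2 - 1` such that `X = (j+1) A - j A` has
`|X + A + (A - A)| ≤ exp (8 ℓ / k) |X|`, and the main theorem of `V8H19.AP.Core4` is applied to the pair `X`, `A` and
to translations in `A`.
-/

set_option autoImplicit false

namespace Pool.Agent.Results.MP_169871_nt.FewSummands

open Pool.Agent.V8H19

/-- The Bohr set `B(Γ, ε) = {x ∈ ℤ/N : ‖γ x / N‖ ≤ ε for all γ ∈ Γ}`; the norm is the distance to the nearest
integer. -/
def bohr {N : ℕ} (Γ : Finset (ZMod N)) (ε : ℝ) : Set (ZMod N) :=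
  {x | ∀ γ ∈ Γ, |((γ * x).val : ℝ) / (N : ℝ) - ((round (((γ * x).val : ℝ) / (N : ℝ)) : ℤ) : ℝ)| ≤ ε}

/-- The set `kA - kA` of the differences of two sums of `k` elements of `A`. -/
def kAMinusKA {N : ℕ} (k : ℕ) (A : Finset (ZMod N)) : Set (ZMod N) :=
  {x | ∃ a b : Fin k → ZMod N, (∀ i, a i ∈ A) ∧ (∀ i, b i ∈ A) ∧ x = ∑ i, a i - ∑ i, b i}

/-- `log (1/α)` for the density `α = |A| / N` -/
noncomputable def logDens {N : ℕ} (A : Finset (ZMod N)) : ℝ := Real.log ((N : ℝ) / (A.card : ℝ))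

/-- **Bohr sets in `kA - kA`.** -/
theorem result : ∃ C : ℝ, 1 ≤ C ∧ ∀ (N : ℕ), 0 < N → ∀ A : Finset (ZMod N), A.Nonempty →
    (A.card : ℝ) / (N : ℝ) ≤ 1 / 2 → ∀ k : ℕ, 2 ≤ k →
    ∃ Γ : Finset (ZMod N),
      (Γ.card : ℝ) ≤ C * (logDens A * (1 + logDens A / k * Real.log (2 + logDens A / k))) ∧
      bohr Γ (1 / (C * logDens A)) ⊆ kAMinusKA k A := by
  obtain ⟨C, hC, h⟩ := AP.core4
  refine ⟨3000 * C, by linarith, ?_⟩
  intro N hN A hA hα k hk
  have : NeZero N := ⟨hN.ne'⟩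
  have hlog2 := Real.log_two_gt_d9
  have hAc : (0 : ℝ) < A.card := by exact_mod_cast hA.card_pos
  have hNpos : (0 : ℝ) < N := by exact_mod_cast hN
  have hx0 : 0 < logDens A := by
    apply Real.log_pos
    rw [div_le_iff₀ hNpos] at hα
    rw [lt_div_iff₀ hAc]
    linarith
  have hk0 : (0 : ℝ) < k := by exact_mod_cast (by omega : 0 < k)
  obtain ⟨Γ, h1, h2⟩ := AP.few C hC (fun N _ => h N) N A hA hα k hk (logDens A) (logDens A / k) rfl rfl
  refine ⟨Γ, h1.trans ?_, fun y hy => h2 y fun g hg => (hy g hg).trans ?_⟩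
  · have h3 : 0 ≤ Real.log (2 + logDens A / k) := Real.log_nonneg (by
      have : 0 < logDens A / k := by positivity
      linarith)
    gcongr
    norm_num
  · apply one_div_le_one_div_of_le (by positivity)
    nlinarith

/-- Corollary: the conclusion of Q1 for `kA - kA` if `k ≥ log (1/α)`. -/
theorem linear : ∃ C : ℝ, 1 ≤ C ∧ ∀ (N : ℕ), 0 < N → ∀ A : Finset (ZMod N), A.Nonempty →
    (A.card : ℝ) / (N : ℝ) ≤ 1 / 2 → ∀ k : ℕ, 2 ≤ k → logDens A ≤ k →
    ∃ Γ : Finset (ZMod N), (Γ.card : ℝ) ≤ C * logDens A ∧ bohr Γ (1 / (C * logDens A)) ⊆ kAMinusKA k A := by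
  obtain ⟨C, hC, h⟩ := result
  refine ⟨4 * C, by linarith, ?_⟩
  intro N hN A hA hα k hk hkx
  have hAc : (0 : ℝ) < A.card := by exact_mod_cast hA.card_pos
  have hNpos : (0 : ℝ) < N := by exact_mod_cast hN
  have hx0 : 0 < logDens A := by
    apply Real.log_pos
    rw [div_le_iff₀ hNpos] at hα
    rw [lt_div_iff₀ hAc]
    linarith
  have hk0 : (0 : ℝ) < k := by exact_mod_cast (by omega : 0 < k)
  obtain ⟨Γ, h1, h2⟩ := h N hN A hA hα k hk
  have hu : logDens A / k ≤ 1 := by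
    rw [div_le_one hk0]
    exact hkx
  have hu0 : 0 < logDens A / k := by positivity
  refine ⟨Γ, h1.trans ?_, fun y hy => h2 fun g hg => (hy g hg).trans ?_⟩
  · have h3 : 0 ≤ Real.log (2 + logDens A / k) := Real.log_nonneg (by linarith)
    have h4 : Real.log (2 + logDens A / k) ≤ 2 := by
      have := Real.log_le_sub_one_of_pos (by linarith : 0 < 2 + logDens A / k)
      linarith
    calc C * (logDens A * (1 + logDens A / k * Real.log (2 + logDens A / k)))
        ≤ C * (logDens A * (1 + 1 * 2)) := by gcongr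
      _ ≤ 4 * C * logDens A := by nlinarith
  · apply one_div_le_one_div_of_le (by positivity)
    nlinarith

end Pool.Agent.Results.MP_169871_nt.FewSummands
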