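import Pool.Agent.V8H19.AP.Core4

/-!
# Bohr sets with `O (log² (1/α) log log (1/α))` frequencies and radius `c / log (1/α)` in `2A - 2A`

Let `A ⊆ ℤ/N` have density `α ≤ 1/2` and `|A + A| ≤ K |A|`; put `ℓ = log (1/α)` and `m = min (ℓ, log (2K))`. The
theorem says that `2A - 2A` contains a Bohr set with at most `C (ℓ / log (2 + R) + m² log (2 + m))` frequencies and
radius `1 / R`, for every `R ≥ C m`. So, with `R = C ℓ`,

* for every `A` there is a Bohr set with `O (ℓ² log (2 + ℓ))` frequencies and radius at least `c / ℓ` (`all_sets`);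
* the conclusion of Q1 holds for the sets `A` with `log² (2K) log (2 + log (2K)) = O (ℓ)`, and for the sets that
  contain a piece of such doubling and of density at least `α^{O(1)}` (`moderate_doubling`).

The parts of the proof (`V8H19.AP`):

* `Step`: an averaged, entropic form of the argument of Croot and Sisask. Let `p`, `q`, `π` be laws on a finite abelian
  group and `F x = P_q (x + b ∈ S)`. If the law `π` of translations increases the entropy of `q` by at most `A / n` and
  the entropy of `p` by at most `Δ ≤ n - 1` then there is a law `ν ≤ exp (4A + 3) π` with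
  `E |F (x + s - s') - F x| ≤ 32 √((Δ + 1) / n)`, `x` of law `p` and `s`, `s'` of law `ν`. There is no loss of `log K`
  in the error, since the error is only bounded in the mean over `p`. The law `ν` is a truncated posterior law of `s`
  given the sample `b_1 + s, …, b_n + s`.
* `Cap`, `Ext`: the extremal pair. The pair of laws `(p, q)` of bounded density that maximizes
  `H (p) + H (q) + λ P (x + b ∈ S)`, with capped entropies `H` and `λ` a multiple of `log (2K)`, has
  `P (x + b ∈ S) ≥ 19/20`, and a smoothing of `p` or of `q` which does little harm to `P (x + b ∈ S)` increases the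
  entropies by little.
* `Lev`, `Smooth`: hence the law `π` of the translations can be improved in about `log log (2K)` levels, each of cost
  `O (log² (2K))`, until its increments are `O (1)`; then `p` is smoothed `l = O (log (2K))` times, by different
  posterior laws `ν_1, …, ν_l`, each of relative density `exp (O (log² (2K)))`, with a total harm of at most `1/20`.
* `Four2` (with the kernel estimate of `Kernel`): if `‖ψ (γ y) - 1‖ ≤ 1/40` for all `γ` with
  `∑ |ν̂_j (γ)| ≥ l / 2`, then `P (x + b ∈ S, x + b + y ∈ S) > 0`, so that `y ∈ S - S`.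
* `LCH2`, `Comb4`, `Core4`: the local form of Chang's theorem for the family `ν_1, …, ν_l` (a dissociated set of such
  `γ` is, for some `j`, one with large `∑ |ν̂_j (γ)|`), the covering of `A` by translates of a proper coset progression,
  and the Bohr sets in proper coset progressions, following the starting files `N142.CD`.
-/

set_option autoImplicit false

namespace Pool.Agent.Results.MP_169871_nt.QuadraticDimension

open Pool.Agent.V8H19
open scoped Pointwise

/-- The Bohr set `B(Γ, ε) = {x ∈ ℤ/N : ‖γ x / N‖ ≤ ε for all γ ∈ Γ}`; the norm is the distance to the nearest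
integer. -/
def bohr {N : ℕ} (Γ : Finset (ZMod N)) (ε : ℝ) : Set (ZMod N) :=
  {x | ∀ γ ∈ Γ, |((γ * x).val : ℝ) / (N : ℝ) - ((round (((γ * x).val : ℝ) / (N : ℝ)) : ℤ) : ℝ)| ≤ ε}

/-- The set `2A - 2A`. -/
def twoAMinusTwoA {N : ℕ} (A : Finset (ZMod N)) : Set (ZMod N) :=
  {x | ∃ a₁ ∈ A, ∃ a₂ ∈ A, ∃ a₃ ∈ A, ∃ a₄ ∈ A, x = a₁ + a₂ - a₃ - a₄}

/-- `log (1/α)` for the density `α = |A| / N` -/
noncomputable def logDens {N : ℕ} (A : Finset (ZMod N)) : ℝ := Real.log ((N : ℝ) / (A.card : ℝ))

theorem logDens_ge {N : ℕ} (hN : 0 < N) (A : Finset (ZMod N)) (hA : A.Nonempty)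
    (hα : (A.card : ℝ) / (N : ℝ) ≤ 1 / 2) : Real.log 2 ≤ logDens A := by
  have hAc : (0 : ℝ) < A.card := by exact_mod_cast hA.card_pos
  have hNpos : (0 : ℝ) < N := by exact_mod_cast hN
  apply Real.log_le_log (by norm_num)
  rw [div_le_iff₀ hNpos] at hα
  rw [le_div_iff₀ hAc]
  linarith

theorem four_card {N : ℕ} [NeZero N] (A : Finset (ZMod N)) (K : ℝ) (hA : A.Nonempty)
    (hAA : ((A + A).card : ℝ) ≤ K * A.card) : ((A + A + (A - A)).card : ℝ) ≤ K ^ 4 * A.card := by
  have h := Finset.pluennecke_ruzsa_inequality_nsmul_sub_nsmul_add hA A 3 1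
  have e : (3 : ℕ) • A - (1 : ℕ) • A = A + A + (A - A) := by
    rw [one_nsmul, show (3 : ℕ) = 2 + 1 by norm_num, add_nsmul, one_nsmul, two_nsmul, add_sub_assoc]
  rw [e] at h
  have hA0 : (0 : ℝ) < A.card := by exact_mod_cast hA.card_pos
  have h2 : ((A + A + (A - A)).card : ℝ) ≤ (((A + A).card : ℝ) / A.card) ^ (3 + 1) * A.card := by
    have h3 : (((A + A + (A - A)).card : ℚ≥0) : ℝ) ≤
        ((((A + A).card / A.card : ℚ≥0) ^ (3 + 1) * A.card : ℚ≥0) : ℝ) := by
      exact_mod_cast h
    push_cast at h3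
    exact_mod_cast h3
  refine h2.trans (mul_le_mul_of_nonneg_right ?_ hA0.le)
  have h4 : ((A + A).card : ℝ) / A.card ≤ K := by
    rw [div_le_iff₀ hA0]
    exact hAA
  exact pow_le_pow_left₀ (by positivity) h4 4

/-- **Bohr sets with `O (log² (1/α) log log (1/α))` frequencies and radius `c / log (1/α)` in `2A - 2A`.** -/
theorem result : ∃ C : ℝ, 1 ≤ C ∧ ∀ (N : ℕ), 0 < N → ∀ (A : Finset (ZMod N)) (K R : ℝ), A.Nonempty →
    (A.card : ℝ) / (N : ℝ) ≤ 1 / 2 → 1 ≤ K → ((A + A).card : ℝ) ≤ K * A.card →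
    C * min (logDens A) (Real.log (2 * K)) ≤ R →
    ∃ Γ : Finset (ZMod N),
      (Γ.card : ℝ) ≤ C * (logDens A / Real.log (2 + R) +
        min (logDens A) (Real.log (2 * K)) ^ 2 * Real.log (2 + min (logDens A) (Real.log (2 * K)))) ∧
      bohr Γ (1 / R) ⊆ twoAMinusTwoA A := by
  obtain ⟨C, hC, h⟩ := AP.core4
  refine ⟨400 * C + 4848, by linarith, ?_⟩
  intro N hN A K R hA hα hK hAA hR
  have : NeZero N := ⟨hN.ne'⟩
  have hlog2 := Real.log_two_gt_d9
  have hlog2' := Real.log_two_lt_d9
  have hAc : (0 : ℝ) < A.card := by exact_mod_cast hA.card_pos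
  have hNpos : (0 : ℝ) < N := by exact_mod_cast hN
  have hx2 := logDens_ge hN A hA hα
  obtain ⟨x, hx⟩ : ∃ x : ℝ, x = logDens A := ⟨_, rfl⟩
  obtain ⟨m, hm⟩ : ∃ m : ℝ, m = min (logDens A) (Real.log (2 * K)) := ⟨_, rfl⟩
  rw [← hm] at hR ⊢
  have hm2 : Real.log 2 ≤ m := by
    rw [hm]
    exact le_min hx2 (Real.log_le_log (by norm_num) (by linarith))
  have hm0 : 0 < m := by linarith
  -- the effective doubling
  obtain ⟨K', hK'⟩ : ∃ K' : ℝ, K' = min K (N / A.card) := ⟨_, rfl⟩
  have hNA : 2 ≤ (N : ℝ) / A.card := by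
    rw [div_le_iff₀ hNpos] at hα
    rw [le_div_iff₀ hAc]
    linarith
  have hK'1 : 1 ≤ K' := by rw [hK']; exact le_min hK (by linarith)
  have hAA' : ((A + A).card : ℝ) ≤ K' * A.card := by
    rw [hK', min_mul_of_nonneg _ _ hAc.le]
    refine le_min hAA ?_
    rw [div_mul_cancel₀ _ hAc.ne']
    have := Finset.card_le_univ (A + A)
    rw [ZMod.card] at this
    exact_mod_cast this
  have hL' : Real.log (2 * K') ≤ 2 * m := by
    rw [hm, mul_min_of_nonneg _ _ (by norm_num)]
    refine le_min ?_ ?_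
    · have h1 : Real.log (2 * K') ≤ Real.log (2 * (N / A.card)) := by
        apply Real.log_le_log (by linarith)
        have : K' ≤ N / A.card := by rw [hK']; exact min_le_right _ _
        linarith
      have h2 : Real.log (2 * (N / A.card)) = Real.log 2 + logDens A :=
        Real.log_mul (by norm_num) (by positivity)
      linarith
    · have h1 : Real.log (2 * K') ≤ Real.log (2 * K) := by
        apply Real.log_le_log (by linarith)
        have : K' ≤ K := by rw [hK']; exact min_le_left _ _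
        linarith
      have h2 : 0 ≤ Real.log (2 * K) := Real.log_nonneg (by linarith)
      linarith
  have hL'0 : 0 ≤ Real.log (2 * K') := Real.log_nonneg (by linarith)
  -- the cost
  have hK'4 : 1 ≤ K' ^ 4 := one_le_pow₀ hK'1
  have hL4 : Real.log (2 * K' ^ 4) ≤ 8 * m := by
    have h1 : Real.log (2 * K' ^ 4) = Real.log 2 + 4 * Real.log K' := by
      rw [Real.log_mul (by norm_num) (by positivity), Real.log_pow]
      norm_num
    have h2 : Real.log (2 * K') = Real.log 2 + Real.log K' := Real.log_mul (by norm_num) (by linarith)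
    linarith
  have hL40 : 0 ≤ Real.log (2 * K' ^ 4) := Real.log_nonneg (by linarith)
  have hlogm : 0.99 ≤ Real.log (2 + m) := by
    have h1 : (2.69314 : ℝ) ≤ 2 + m := by linarith
    have h2 : Real.log 2.69314 ≤ Real.log (2 + m) := Real.log_le_log (by norm_num) h1
    have h3 : (0.99 : ℝ) ≤ Real.log 2.69314 := by
      rw [Real.le_log_iff_exp_le (by norm_num)]
      have h4 : Real.exp 0.99 = Real.exp 1 * Real.exp (-0.01) := by rw [← Real.exp_add]; norm_num
      have h5 : Real.exp (-0.01) ≤ 1 / 1.01 := by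
        rw [Real.exp_neg, inv_eq_one_div]
        apply one_div_le_one_div_of_le (by norm_num)
        have := Real.add_one_le_exp (0.01 : ℝ)
        linarith
      have h6 := Real.exp_one_lt_d9
      rw [h4]
      calc Real.exp 1 * Real.exp (-0.01) ≤ 2.7182818286 * (1 / 1.01) := by gcongr
        _ ≤ 2.69314 := by norm_num
    linarith
  have hW : AP.Wc (Real.log (2 * K' ^ 4)) (Real.log (2 * K' ^ 4)) ≤ 320 * (m ^ 2 * Real.log (2 + m)) := by
    unfold AP.Wc
    rw [min_self]
    have h1 : Real.log (1 + Real.log (2 * K' ^ 4)) ≤ 3 * Real.log 2 + Real.log (2 + m) := by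
      have h2 : Real.log (1 + Real.log (2 * K' ^ 4)) ≤ Real.log (2 ^ 3 * (2 + m)) :=
        Real.log_le_log (by linarith) (by linarith)
      have h3 : Real.log (2 ^ 3 * (2 + m)) = 3 * Real.log 2 + Real.log (2 + m) := by
        rw [Real.log_mul (by norm_num) (by linarith), Real.log_pow]
        norm_num
      rw [h3] at h2
      exact h2
    have h2 : 0 ≤ Real.log (1 + Real.log (2 * K' ^ 4)) := Real.log_nonneg (by linarith)
    calc Real.log (2 * K' ^ 4) * Real.log (2 * K' ^ 4) * (1 + Real.log (1 + Real.log (2 * K' ^ 4)))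
        ≤ (8 * m) * (8 * m) * (5 * Real.log (2 + m)) := by
          gcongr
          linarith
      _ = 320 * (m ^ 2 * Real.log (2 + m)) := by ring
  -- the radius
  have hR1 : 4848 * m ≤ R := by
    have : 0 ≤ 400 * C * m := by positivity
    linarith
  have hR2 : 3000 ≤ R := by linarith
  obtain ⟨R', hR'⟩ : ∃ R' : ℕ, R' = ⌊R / 8⌋₊ := ⟨_, rfl⟩
  have hR'1 : (R' : ℝ) ≤ R / 8 := by rw [hR']; exact Nat.floor_le (by linarith)
  have hR'2 : R / 8 < R' + 1 := by rw [hR']; exact Nat.lt_floor_add_one _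
  have hR'16 : R / 16 ≤ R' := by linarith
  have hR'0 : (0 : ℝ) < R' := by linarith
  have h4 := four_card A K' hA hAA'
  have hτ : Real.log ((A.card : ℝ) / A.card) = 0 := by rw [div_self hAc.ne', Real.log_one]
  obtain ⟨Γ, h1, h2⟩ := h N A A A A K' (K' ^ 4) (K' ^ 4) R' hA hA hA (Finset.Subset.refl A) hK'1 hK'4 hK'4 hAA' h4 h4
    (by linarith) (by linarith) (by linarith) (by rw [hτ]; exact hR'0.le)
  rw [hτ, add_zero] at h1
  refine ⟨Γ, h1.trans ?_, fun y hy => ?_⟩
  · have hlR : 0 < Real.log (2 + R) := Real.log_pos (by linarith)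
    have hlR' : Real.log (2 + R) ≤ 2 * Real.log R' := by
      have h3 : 2 + R ≤ (R' : ℝ) ^ 2 := by
        have h4 : (R / 16) ^ 2 ≤ (R' : ℝ) ^ 2 := pow_le_pow_left₀ (by linarith) hR'16 2
        nlinarith
      have h4 := Real.log_le_log (by linarith) h3
      rw [Real.log_pow] at h4
      push_cast at h4
      exact h4
    have hlR'0 : 0 < Real.log R' := by linarith
    have hx0 : 0 < x := by rw [hx]; linarith
    have e1 : x / Real.log R' ≤ 2 * (x / Real.log (2 + R)) := by
      rw [← mul_div_assoc, div_le_div_iff₀ hlR'0 hlR]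
      calc x * Real.log (2 + R) ≤ x * (2 * Real.log R') := by gcongr
        _ = 2 * x * Real.log R' := by ring
    have e2 : Real.log (2 * K') ^ 2 ≤ 5 * (m ^ 2 * Real.log (2 + m)) := by
      calc Real.log (2 * K') ^ 2 ≤ (2 * m) ^ 2 := pow_le_pow_left₀ hL'0 hL' 2
        _ = 5 * (m ^ 2 * 0.8) := by ring
        _ ≤ 5 * (m ^ 2 * Real.log (2 + m)) := by
            gcongr
            linarith
    change C * (logDens A / Real.log R' + (Real.log (2 * K') ^ 2 +
      AP.Wc (Real.log (2 * K' ^ 4)) (Real.log (2 * K' ^ 4)))) ≤ _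
    rw [← hx]
    have e3 : 0 ≤ x / Real.log (2 + R) := by positivity
    have e4 : 0 ≤ m ^ 2 * Real.log (2 + m) := by
      have : 0 ≤ Real.log (2 + m) := by linarith
      positivity
    calc C * (x / Real.log R' + (Real.log (2 * K') ^ 2 + AP.Wc (Real.log (2 * K' ^ 4)) (Real.log (2 * K' ^ 4))))
        ≤ C * (2 * (x / Real.log (2 + R)) + (5 * (m ^ 2 * Real.log (2 + m)) + 320 * (m ^ 2 * Real.log (2 + m)))) := by
          gcongr
      _ ≤ (400 * C + 4848) * (x / Real.log (2 + R) + m ^ 2 * Real.log (2 + m)) := by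
          nlinarith [mul_nonneg (by linarith : (0 : ℝ) ≤ C) e3, mul_nonneg (by linarith : (0 : ℝ) ≤ C) e4]
  · obtain ⟨a₁, k1, a₂, k2, a₃, k3, a₄, k4, k5⟩ := h2 y fun g hg => (hy g hg).trans (by
      apply one_div_le_one_div_of_le (by positivity)
      linarith)
    exact ⟨a₁, k1, a₂, k2, a₃, k3, a₄, k4, k5⟩

/-- Corollary: all sets. -/
theorem all_sets : ∃ C : ℝ, 1 ≤ C ∧ ∀ (N : ℕ), 0 < N → ∀ (A : Finset (ZMod N)), A.Nonempty →
    (A.card : ℝ) / (N : ℝ) ≤ 1 / 2 →
    ∃ (Γ : Finset (ZMod N)) (ε : ℝ), 0 < ε ∧ (Γ.card : ℝ) ≤ C * (logDens A ^ 2 * Real.log (2 + logDens A)) ∧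
      1 / C / logDens A ≤ ε ∧ bohr Γ ε ⊆ twoAMinusTwoA A := by
  obtain ⟨C, hC, h⟩ := result
  have hlog2 := Real.log_two_gt_d9
  refine ⟨9 * C, by linarith, ?_⟩
  intro N hN A hA hα
  have : NeZero N := ⟨hN.ne'⟩
  have hAc : (0 : ℝ) < A.card := by exact_mod_cast hA.card_pos
  have hA1 : (1 : ℝ) ≤ A.card := by exact_mod_cast hA.card_pos
  have hNpos : (0 : ℝ) < N := by exact_mod_cast hN
  have hN1 : (1 : ℝ) ≤ N := by exact_mod_cast hN
  have hx2 := logDens_ge hN A hA hα
  obtain ⟨x, hx⟩ : ∃ x : ℝ, x = logDens A := ⟨_, rfl⟩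
  rw [← hx] at hx2
  have hx0 : 0 < x := by linarith
  have hmin : min (logDens A) (Real.log (2 * N)) ≤ x := by rw [hx]; exact min_le_left _ _
  have hmin0 : 0 ≤ min (logDens A) (Real.log (2 * N)) :=
    le_min (by rw [← hx]; exact hx0.le) (Real.log_nonneg (by linarith))
  obtain ⟨Γ, h1, h2⟩ := h N hN A N (C * x) hA hα hN1 (by
    have := Finset.card_le_univ (A + A)
    rw [ZMod.card] at this
    have : ((A + A).card : ℝ) ≤ N := by exact_mod_cast this
    nlinarith) (by gcongr)
  rw [← hx] at h1 ⊢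
  rw [← hx] at hmin hmin0
  refine ⟨Γ, 1 / (C * x), by positivity, h1.trans ?_, ?_, h2⟩
  · have h3 : Real.log 2 ≤ Real.log (2 + C * x) := Real.log_le_log (by norm_num) (by nlinarith)
    have h3' : Real.log 2 ≤ Real.log (2 + x) := Real.log_le_log (by norm_num) (by linarith)
    have h4 : x / Real.log (2 + C * x) ≤ 8 * (x ^ 2 * Real.log (2 + x)) := by
      rw [div_le_iff₀ (by linarith)]
      have h5 : 1 ≤ 1.5 * x := by linarith
      have h6 : 0 ≤ Real.log (2 + x) := by linarith
      calc x ≤ x * (1.5 * x) := le_mul_of_one_le_right hx0.le h5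
        _ ≤ 8 * (x ^ 2 * 0.5) * 0.5 := by nlinarith
        _ ≤ 8 * (x ^ 2 * Real.log (2 + x)) * Real.log (2 + C * x) := by
            have h7 : (0.5 : ℝ) ≤ Real.log (2 + x) := by linarith
            have h8 : (0.5 : ℝ) ≤ Real.log (2 + C * x) := by linarith
            gcongr
    have h6 : min x (Real.log (2 * N)) ^ 2 * Real.log (2 + min x (Real.log (2 * N))) ≤ x ^ 2 * Real.log (2 + x) := by
      have h7 : 0 ≤ Real.log (2 + min x (Real.log (2 * N))) := Real.log_nonneg (by linarith)
      gcongr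
    calc C * (x / Real.log (2 + C * x) + min x (Real.log (2 * N)) ^ 2 * Real.log (2 + min x (Real.log (2 * N))))
        ≤ C * (8 * (x ^ 2 * Real.log (2 + x)) + x ^ 2 * Real.log (2 + x)) := by gcongr
      _ = 9 * C * (x ^ 2 * Real.log (2 + x)) := by ring
  · rw [div_div]
    apply one_div_le_one_div_of_le (by positivity)
    nlinarith [mul_pos (by linarith : (0 : ℝ) < C) hx0]

/-- Corollary: the conclusion of Q1 for all sets `A` with a piece `B` (for example `B = A`) of density at least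
`α ^ D` and of doubling `K` with `log² (2K) log (2 + log (2K)) ≤ D log (1/α)`. -/
theorem moderate_doubling (D : ℝ) (hD : 1 ≤ D) : ∃ C : ℝ, 1 ≤ C ∧ ∀ (N : ℕ), 0 < N →
    ∀ (A B : Finset (ZMod N)) (K : ℝ), A.Nonempty →
      (A.card : ℝ) / (N : ℝ) ≤ 1 / 2 → B ⊆ A → B.Nonempty → logDens B ≤ D * logDens A → 1 ≤ K →
      ((B + B).card : ℝ) ≤ K * B.card →
      Real.log (2 * K) ^ 2 * Real.log (2 + Real.log (2 * K)) ≤ D * logDens A →
      ∃ (Γ : Finset (ZMod N)) (ε : ℝ), 0 < ε ∧ (Γ.card : ℝ) ≤ C * logDens A ∧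
        1 / C / logDens A ≤ ε ∧ bohr Γ ε ⊆ twoAMinusTwoA A := by
  obtain ⟨C, hC, h⟩ := result
  have hlog2 := Real.log_two_gt_d9
  refine ⟨4 * D * C, by nlinarith, ?_⟩
  intro N hN A B K hA hα hBA hB hd hK hBB hKx
  have hAc : (0 : ℝ) < A.card := by exact_mod_cast hA.card_pos
  have hBc : (0 : ℝ) < B.card := by exact_mod_cast hB.card_pos
  have hBAc : (B.card : ℝ) ≤ A.card := by exact_mod_cast Finset.card_le_card hBA
  have hNpos : (0 : ℝ) < N := by exact_mod_cast hN
  have hx2 := logDens_ge hN A hA hα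
  have hαB : (B.card : ℝ) / N ≤ 1 / 2 := (div_le_div_of_nonneg_right hBAc hNpos.le).trans hα
  have hy2 := logDens_ge hN B hB hαB
  obtain ⟨x, hx⟩ : ∃ x : ℝ, x = logDens A := ⟨_, rfl⟩
  obtain ⟨x', hx'⟩ : ∃ x' : ℝ, x' = logDens B := ⟨_, rfl⟩
  have hmin : min (logDens B) (Real.log (2 * K)) ≤ x' := by rw [hx']; exact min_le_left _ _
  have hmin2 : min (logDens B) (Real.log (2 * K)) ≤ Real.log (2 * K) := min_le_right _ _
  have hmin0 : 0 ≤ min (logDens B) (Real.log (2 * K)) := le_min (by linarith) (Real.log_nonneg (by linarith))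
  obtain ⟨Γ, h1, h2⟩ := h N hN B K (C * x') hB hαB hK hBB (by gcongr)
  rw [← hx] at hx2 hd hKx ⊢
  rw [← hx'] at h1 hd hy2 hmin hmin2 hmin0
  have hx0 : 0 < x := by linarith
  have hx'0 : 0 < x' := by linarith
  refine ⟨Γ, 1 / (C * x'), by positivity, h1.trans ?_, ?_, fun y hy => ?_⟩
  · have h8 : 1 / 2 ≤ Real.log (2 + C * x') := by
      have h9 : Real.log 2 ≤ Real.log (2 + C * x') := Real.log_le_log (by norm_num) (by nlinarith)
      linarith
    have h9 : x' / Real.log (2 + C * x') ≤ 2 * (D * x) := by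
      rw [div_le_iff₀ (by linarith)]
      have : 0 ≤ D * x := by positivity
      nlinarith
    have hDx : 0 ≤ D * x := by positivity
    have h10 : min x' (Real.log (2 * K)) ^ 2 * Real.log (2 + min x' (Real.log (2 * K))) ≤ D * x := by
      refine le_trans ?_ hKx
      have h11 : 0 ≤ Real.log (2 + min x' (Real.log (2 * K))) := Real.log_nonneg (by linarith)
      gcongr
    calc C * (x' / Real.log (2 + C * x') + min x' (Real.log (2 * K)) ^ 2 * Real.log (2 + min x' (Real.log (2 * K))))
        ≤ C * (2 * (D * x) + D * x) := by gcongr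
      _ ≤ 4 * D * C * x := by nlinarith [mul_nonneg (by linarith : (0 : ℝ) ≤ C) hDx]
  · rw [div_div]
    apply one_div_le_one_div_of_le (by positivity)
    calc C * x' ≤ C * (D * x) := by gcongr
      _ ≤ 4 * D * C * x := by
        nlinarith [mul_nonneg (by linarith : (0 : ℝ) ≤ C) (mul_nonneg (by linarith : (0 : ℝ) ≤ D) hx0.le)]
  · obtain ⟨a₁, k1, a₂, k2, a₃, k3, a₄, k4, k5⟩ := h2 hy
    exact ⟨a₁, hBA k1, a₂, hBA k2, a₃, hBA k3, a₄, hBA k4, k5⟩

end Pool.Agent.Results.MP_169871_nt.QuadraticDimension
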