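import Pool.Agent.V8H16.BL.Final
import Pool.Agent.N547.BG.SUM
import Pool.Agent.N91.BG.MOM
import Pool.Agent.N507.BG.PIG
import Pool.Agent.N80.BG.BIG
import Pool.Agent.N27.BG.Mul
import Pool.Agent.N342.BG.POL
import Pool.Agent.N674.BG.BOG
import Pool.Agent.N106.BG.IND
import Pool.Agent.N353.BG.MAX
import Pool.Agent.N700.BG.GEN
import Pool.Agent.N31.BG.REP
import Pool.Agent.N667.BG.CVX
import Pool.Agent.N933.BG.THM
import Pool.Agent.N173.BG.TRD

/-!
# The number of frequencies of Bohr sets in `kA - kA` at every radius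

Q1 asks for Bohr sets with `O(log (1/α))` frequencies and radius at least `c / log (1/α)` in `2A - 2A`. The theorem says
that the number of frequencies cannot be lowered below `log (1/α) / log 6`, not even if the radius is allowed to be an
arbitrary function of `α`, or a small negative power of `N`:

(a) for all `N ≥ 8`, `k`, `d` and `α` with `α (3k)^d ≤ 1` there is a set `A` with `⌈α N⌉` elements such that every Bohr
set with `m < d` frequencies and radius `ε` in `kA - kA` has `ε < 32 N ^ (-(1/m - 1/d))`;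

(b) for fixed `k`, `α`, `ε` and all large `N` there is a set `A` with `⌈α N⌉` elements such that every Bohr set of
radius at least `ε` in `kA - kA` has at least `⌊log (1/α) / log (3k)⌋` frequencies;

(c) if `k ≥ C (1 + log (1/α))^10` this is the correct order of magnitude: there is always a Bohr set with at most
`C (1 + log (1/α) / log k)` frequencies and radius `k ^ (-1/10) / 8` in `kA - kA` (this part is a consequence of the
starting file `ManySummands`).

Proof of (a): for random `γ₁, …, γ_d` the set `A` is the largest of the `(3k)^d` cells of the map `x ↦ (γ_i x / N)_i` to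
the torus, so that `‖γ_i x / N‖ < 1/3` for all `x` in `kA - kA` and all `i`. If this holds on the Bohr set of
`f₁, …, f_m` of radius `ε`, then `‖γ_i x / N‖ < 1/6` on the Bohr set of radius `ε / 2`, so by Parseval's identity every
`γ_i` lies in a set of at most `4 (4/ε)^m` elements that depends only on `f` and `ε`; and this happens for some `f` with
probability less than one.
-/

set_option autoImplicit false

namespace Pool.Agent.Results.MP_169871_nt.RankAtEveryRadius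

open Pool.Agent.TH858 Pool.Agent.N173.BG

/-- The Bohr set `B(Γ, ε) = {x ∈ ℤ/N : ‖γ x / N‖ ≤ ε for all γ ∈ Γ}`; the norm is the distance to the nearest
integer. -/
def bohr {N : ℕ} (Γ : Finset (ZMod N)) (ε : ℝ) : Set (ZMod N) :=
  {x | ∀ γ ∈ Γ, |((γ * x).val : ℝ) / (N : ℝ) - ((round (((γ * x).val : ℝ) / (N : ℝ)) : ℤ) : ℝ)| ≤ ε}

/-- The set `kA - kA` of the differences of two sums of `k` elements of `A`. -/
def kAMinusKA {N : ℕ} (k : ℕ) (A : Finset (ZMod N)) : Set (ZMod N) :=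
  {x | ∃ a b : Fin k → ZMod N, (∀ i, a i ∈ A) ∧ (∀ i, b i ∈ A) ∧ x = ∑ i, a i - ∑ i, b i}

/-- `log (1/α)` for the density `α = |A| / N` -/
noncomputable def logDens {N : ℕ} (A : Finset (ZMod N)) : ℝ := Real.log ((N : ℝ) / (A.card : ℝ))

theorem t_pol : S_POL := Pool.Agent.N342.BG.t_POL Pool.Agent.N547.BG.t_SUM
  (Pool.Agent.N507.BG.t_PIG Pool.Agent.N547.BG.t_SUM Pool.Agent.N547.BG.t_CARD)
  (Pool.Agent.N80.BG.t_BIG Pool.Agent.N91.BG.t_MOM Pool.Agent.N547.BG.t_CARD) Pool.Agent.N27.BG.t_MUL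

theorem t_thm : S_THM := Pool.Agent.N933.BG.t_THM t_pol Pool.Agent.N674.BG.t_BOG Pool.Agent.N106.BG.t_IND
  Pool.Agent.N353.BG.t_MAX (Pool.Agent.N667.BG.t_CVX (Pool.Agent.N31.BG.t_REP Pool.Agent.N700.BG.t_GEN))

/-- the upper bound, a consequence of the starting file `ManySummands` -/
theorem upper : ∃ C : ℝ, 0 < C ∧ ∀ N : ℕ, 0 < N → ∀ A : Finset (ZMod N), A.Nonempty →
    (A.card : ℝ) / (N : ℝ) ≤ 1 / 2 → ∀ k : ℕ, C * (1 + logDens A) ^ 10 ≤ k →
    ∃ Γ : Finset (ZMod N), (Γ.card : ℝ) ≤ C * (1 + logDens A / Real.log k) ∧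
      bohr Γ (1 / (8 * (k : ℝ) ^ (1 / 10 : ℝ))) ⊆ kAMinusKA k A := by
  obtain ⟨C₀, hC₀, h⟩ := t_TRD t_thm
  obtain ⟨C₁, hC₁⟩ : ∃ C₁ : ℝ, C₁ = max C₀ 1 := ⟨_, rfl⟩
  have hC₁1 : 1 ≤ C₁ := by rw [hC₁]; exact le_max_right _ _
  have hC₁0 : C₀ ≤ C₁ := by rw [hC₁]; exact le_max_left _ _
  refine ⟨(20 * C₁) ^ 10, by positivity, fun N hN A hA hα k hk => ?_⟩
  have : NeZero N := ⟨hN.ne'⟩
  have hNpos : (0 : ℝ) < N := by exact_mod_cast hN
  have hAc : (0 : ℝ) < A.card := by exact_mod_cast hA.card_pos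
  obtain ⟨l, hl⟩ : ∃ l : ℝ, l = logDens A := ⟨_, rfl⟩
  have hl0 : 0 ≤ l := by
    rw [hl]
    apply Real.log_nonneg
    rw [div_le_iff₀ hNpos] at hα
    rw [le_div_iff₀ hAc]
    linarith
  rw [← hl] at hk ⊢
  obtain ⟨R, hR⟩ : ∃ R : ℝ, R = (k : ℝ) ^ (1 / 10 : ℝ) := ⟨_, rfl⟩
  rw [← hR]
  have hk0 : (0 : ℝ) ≤ k := Nat.cast_nonneg _
  have hR0 : 0 ≤ R := by rw [hR]; exact Real.rpow_nonneg hk0 _
  have hRk : R ^ 10 = k := by
    rw [hR, ← Real.rpow_natCast, ← Real.rpow_mul hk0]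
    norm_num
  have hRl : 20 * C₁ * (1 + l) ≤ R := by
    have h1 : (20 * C₁ * (1 + l)) ^ 10 ≤ R ^ 10 := by
      rw [hRk, mul_pow]
      exact hk
    exact (pow_le_pow_iff_left₀ (by positivity) hR0 (by norm_num)).1 h1
  have hR1 : 20 * C₁ ≤ R := by nlinarith
  have hRl' : l ≤ R := by nlinarith
  have hR20 : 20 ≤ R := by linarith
  have hK : C₀ * Real.log ((N : ℝ) / (A.card : ℝ)) ^ 7 * (Real.log ((N : ℝ) / (A.card : ℝ)) + R) ^ 2 ≤ k := by
    have e : Real.log ((N : ℝ) / (A.card : ℝ)) = l := by rw [hl]; rfl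
    rw [e]
    calc C₀ * l ^ 7 * (l + R) ^ 2 ≤ C₁ * R ^ 7 * (R + R) ^ 2 := by gcongr
      _ = (4 * C₁) * R ^ 9 := by ring
      _ ≤ R * R ^ 9 := by
        apply mul_le_mul_of_nonneg_right _ (by positivity)
        linarith
      _ = R ^ 10 := by ring
      _ = k := hRk
  obtain ⟨Γ, h6, h7⟩ := h N A k R hA hα (by linarith) hK
  refine ⟨Γ, ?_, fun x hx => h7 x fun γ hγ => hx γ hγ⟩
  refine h6.trans ?_
  have e : Real.log ((N : ℝ) / (A.card : ℝ)) = l := by rw [hl]; rfl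
  rw [e]
  have hlogR : Real.log k = 10 * Real.log R := by
    rw [← hRk, Real.log_pow]
    norm_num
  have hlR0 : 0 < Real.log R := Real.log_pos (by linarith)
  have h8 : Real.log (2 + l / R) / Real.log (2 + l + R) ≤ 2 / Real.log R := by
    have h9 : Real.log (2 + l / R) ≤ 2 := by
      have h10 : l / R ≤ 1 := by
        rw [div_le_one (by linarith)]
        exact hRl'
      have h11 : 0 ≤ l / R := by positivity
      have h12 := Real.log_le_sub_one_of_pos (show (0 : ℝ) < 2 + l / R by linarith)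
      linarith
    have h13 : Real.log R ≤ Real.log (2 + l + R) := Real.log_le_log (by linarith) (by linarith)
    calc _ ≤ 2 / Real.log (2 + l + R) := by
          apply div_le_div_of_nonneg_right h9
          linarith
      _ ≤ 2 / Real.log R := by
          apply div_le_div_of_nonneg_left (by norm_num) hlR0 h13
  have h14 : (1 : ℝ) + l * (Real.log (2 + l / R) / Real.log (2 + l + R)) ≤ 20 * (1 + l / Real.log k) := by
    rw [hlogR]
    have h15 : l * (Real.log (2 + l / R) / Real.log (2 + l + R)) ≤ l * (2 / Real.log R) :=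
      mul_le_mul_of_nonneg_left h8 hl0
    have h16 : l * (2 / Real.log R) = 20 * (l / (10 * Real.log R)) := by
      field_simp
      ring
    linarith
  have h17 : 0 ≤ 1 + l / Real.log k := by
    rw [hlogR]
    positivity
  calc C₀ * (1 + l * (Real.log (2 + l / R) / Real.log (2 + l + R))) ≤ C₀ * (20 * (1 + l / Real.log k)) :=
        mul_le_mul_of_nonneg_left h14 hC₀.le
    _ ≤ C₁ * (20 * (1 + l / Real.log k)) := mul_le_mul_of_nonneg_right hC₁0 (by positivity)
    _ = (20 * C₁) ^ 1 * (1 + l / Real.log k) := by ring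
    _ ≤ (20 * C₁) ^ 10 * (1 + l / Real.log k) := by
      apply mul_le_mul_of_nonneg_right _ h17
      exact pow_le_pow_right₀ (by linarith) (by norm_num)

/-- **The number of frequencies of Bohr sets in `kA - kA`.** -/
theorem result :
    -- (a) for all `N ≥ 8`, `k`, `d` and `α` with `α (3k)^d ≤ 1` there is `A` with `⌈α N⌉` elements such that a Bohr
    -- set with `m < d` frequencies and radius `ε` in `kA - kA` satisfies `N ^ (d - m) < (32 / ε) ^ (m d)`
    (∀ (N k d : ℕ) (α : ℝ), 8 ≤ N → 1 ≤ k → 0 < α → α * (3 * k) ^ d ≤ 1 →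
      ∃ A : Finset (ZMod N), A.card = ⌈α * N⌉₊ ∧
        ∀ (Γ : Finset (ZMod N)) (ε : ℝ), 0 < ε → ε ≤ 1 / 2 → Γ.card < d → bohr Γ ε ⊆ kAMinusKA k A →
          (N : ℝ) ^ (d - Γ.card) < (32 / ε) ^ (Γ.card * d)) ∧
    -- (b) for all large `N` there is `A` with `⌈α N⌉` elements such that every Bohr set of radius at least `ε` in
    -- `kA - kA` has at least `⌊log (1/α) / log (3k)⌋` frequencies
    (∀ (k : ℕ) (α ε : ℝ), 1 ≤ k → 0 < α → α ≤ 1 / 2 → 0 < ε → ∃ N₀ : ℕ, ∀ N : ℕ, N₀ ≤ N →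
      ∃ A : Finset (ZMod N), A.card = ⌈α * N⌉₊ ∧
        ∀ (Γ : Finset (ZMod N)) (ρ : ℝ), ε ≤ ρ → bohr Γ ρ ⊆ kAMinusKA k A →
          ⌊Real.log (1 / α) / Real.log (3 * k)⌋₊ ≤ Γ.card) ∧
    -- (c) the matching upper bound for `k ≥ C (1 + log (1/α)) ^ 10`
    (∃ C : ℝ, 0 < C ∧ ∀ N : ℕ, 0 < N → ∀ A : Finset (ZMod N), A.Nonempty →
      (A.card : ℝ) / (N : ℝ) ≤ 1 / 2 → ∀ k : ℕ, C * (1 + logDens A) ^ 10 ≤ k →
      ∃ Γ : Finset (ZMod N), (Γ.card : ℝ) ≤ C * (1 + logDens A / Real.log k) ∧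
        bohr Γ (1 / (8 * (k : ℝ) ^ (1 / 10 : ℝ))) ⊆ kAMinusKA k A) := by
  refine ⟨fun N k d α hN hk hα hαd => ?_, fun k α ε hk hα hα' hε => ?_, upper⟩
  · obtain ⟨A, hA1, hA2⟩ := Pool.Agent.V8H16.BL.tradeoff N k d α hN hk hα hαd
    exact ⟨A, hA1, fun Γ ε hε hε1 hΓ hsub => hA2 Γ ε hε (by linarith) hΓ fun x hx => hsub fun g hg => hx g hg⟩
  · obtain ⟨N₀, hN₀⟩ := Pool.Agent.V8H16.BL.every k α ε hk hα hα' hε
    refine ⟨N₀, fun N hN => ?_⟩
    obtain ⟨A, hA1, hA2⟩ := hN₀ N hN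
    exact ⟨A, hA1, fun Γ ρ hρ hsub => hA2 Γ ρ hρ fun x hx => hsub fun g hg => hx g hg⟩

end Pool.Agent.Results.MP_169871_nt.RankAtEveryRadius
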