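import Pool.Agent.V8H19.AP.Core4

/-!
# Bohr sets in `A + B - A - B`

Let `A`, `B` be nonempty subsets of `ℤ/N` of densities `α`, `β ≤ 1/2`; put `ℓ = log (1/α)`, `m = log (1/β)`. The theorem
says that `A + B - A - B` contains a Bohr set of radius `1 / (C (ℓ + m))` with at most
`C ℓ m log (2 + min (ℓ, m))` frequencies. In particular (`dense_partner`) if `β ≥ β₀` is bounded below then there are
only `O (ℓ)` frequencies, which is the conclusion of Q1 for `A + B - A - B` in place of `2A - 2A`.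

Proof: the main theorem of `V8H19.AP.Core4`, applied to the pair `A`, `B` and to the translations by all elements of
`ℤ/N`. Its proof is described in the file `QuadraticDimension`.
-/

set_option autoImplicit false

namespace Pool.Agent.Results.MP_169871_nt.TwoSets

open Pool.Agent.V8H19
open scoped Pointwise

/-- The Bohr set `B(Γ, ε) = {x ∈ ℤ/N : ‖γ x / N‖ ≤ ε for all γ ∈ Γ}`; the norm is the distance to the nearest
integer. -/
def bohr {N : ℕ} (Γ : Finset (ZMod N)) (ε : ℝ) : Set (ZMod N) :=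
  {x | ∀ γ ∈ Γ, |((γ * x).val : ℝ) / (N : ℝ) - ((round (((γ * x).val : ℝ) / (N : ℝ)) : ℤ) : ℝ)| ≤ ε}

/-- The set `A + B - A - B`. -/
def fourSum {N : ℕ} (A B : Finset (ZMod N)) : Set (ZMod N) :=
  {x | ∃ a₁ ∈ A, ∃ b₁ ∈ B, ∃ a₂ ∈ A, ∃ b₂ ∈ B, x = a₁ + b₁ - a₂ - b₂}

/-- `log (1/α)` for the density `α = |A| / N` -/
noncomputable def logDens {N : ℕ} (A : Finset (ZMod N)) : ℝ := Real.log ((N : ℝ) / (A.card : ℝ))

theorem logDens_ge {N : ℕ} (hN : 0 < N) (A : Finset (ZMod N)) (hA : A.Nonempty)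
    (hα : (A.card : ℝ) / (N : ℝ) ≤ 1 / 2) : Real.log 2 ≤ logDens A ∧ 2 ≤ (N : ℝ) / A.card := by
  have hAc : (0 : ℝ) < A.card := by exact_mod_cast hA.card_pos
  have hNpos : (0 : ℝ) < N := by exact_mod_cast hN
  have h : 2 ≤ (N : ℝ) / A.card := by
    rw [div_le_iff₀ hNpos] at hα
    rw [le_div_iff₀ hAc]
    linarith
  exact ⟨Real.log_le_log (by norm_num) h, h⟩

/-- **Bohr sets in `A + B - A - B`.** -/
theorem result : ∃ C : ℝ, 1 ≤ C ∧ ∀ (N : ℕ), 0 < N → ∀ A B : Finset (ZMod N), A.Nonempty → B.Nonempty →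
    (A.card : ℝ) / (N : ℝ) ≤ 1 / 2 → (B.card : ℝ) / (N : ℝ) ≤ 1 / 2 →
    ∃ Γ : Finset (ZMod N),
      (Γ.card : ℝ) ≤ C * (logDens A * logDens B * Real.log (2 + min (logDens A) (logDens B))) ∧
      bohr Γ (1 / (C * (logDens A + logDens B))) ⊆ fourSum A B := by
  classical
  obtain ⟨C, hC, h⟩ := AP.core4
  refine ⟨3000 * C, by linarith, ?_⟩
  intro N hN A B hA hB hα hβ
  have : NeZero N := ⟨hN.ne'⟩
  have hlog2 := Real.log_two_gt_d9
  have hlog2' := Real.log_two_lt_d9
  have hAc : (0 : ℝ) < A.card := by exact_mod_cast hA.card_pos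
  have hBc : (0 : ℝ) < B.card := by exact_mod_cast hB.card_pos
  have hNpos : (0 : ℝ) < N := by exact_mod_cast hN
  obtain ⟨hx2, hNA⟩ := logDens_ge hN A hA hα
  obtain ⟨hy2, hNB⟩ := logDens_ge hN B hB hβ
  obtain ⟨x, hx⟩ : ∃ x : ℝ, x = logDens A := ⟨_, rfl⟩
  obtain ⟨z, hz⟩ : ∃ z : ℝ, z = logDens B := ⟨_, rfl⟩
  rw [← hx] at hx2
  rw [← hz] at hy2
  have hU : (Finset.univ : Finset (ZMod N)) + Finset.univ = Finset.univ := by
    refine Finset.eq_univ_iff_forall.2 fun y =>
      Finset.mem_add.2 ⟨y, Finset.mem_univ _, 0, Finset.mem_univ _, add_zero y⟩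
  have hUc : (((Finset.univ : Finset (ZMod N)).card : ℕ) : ℝ) = N := by rw [Finset.card_univ, ZMod.card]
  have hc : ∀ S : Finset (ZMod N), (0 : ℝ) < S.card → ((A + B + (Finset.univ - Finset.univ)).card : ℝ) ≤
      N / S.card * S.card := by
    intro S hS
    rw [div_mul_cancel₀ _ hS.ne']
    have := Finset.card_le_univ (A + B + (Finset.univ - Finset.univ))
    rw [ZMod.card] at this
    exact_mod_cast this
  obtain ⟨R, hR⟩ : ∃ R : ℕ, R = ⌊3000 * (x + z) / 8⌋₊ := ⟨_, rfl⟩
  have hR1 : (R : ℝ) ≤ 3000 * (x + z) / 8 := by rw [hR]; exact Nat.floor_le (by linarith)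
  have hR2 : 3000 * (x + z) / 8 < R + 1 := by rw [hR]; exact Nat.lt_floor_add_one _
  have hR3 : 360 * (x + z) ≤ R := by linarith
  have hR0 : (0 : ℝ) < R := by linarith
  have hlA : Real.log (2 * (N / A.card)) = Real.log 2 + x := by
    rw [Real.log_mul (by norm_num) (by positivity), hx, logDens]
  have hlB : Real.log (2 * (N / B.card)) = Real.log 2 + z := by
    rw [Real.log_mul (by norm_num) (by positivity), hz, logDens]
  obtain ⟨Γ, h1, h2⟩ := h N A B Finset.univ Finset.univ 1 (N / A.card) (N / B.card) R hA hB Finset.univ_nonempty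
    (Finset.Subset.refl _) le_rfl (by linarith) (by linarith) (by rw [hU, one_mul]) (hc A hAc) (hc B hBc)
    (by rw [mul_one]; nlinarith) (by rw [hlA]; nlinarith) (by rw [hlB]; nlinarith)
    (by rw [hUc, div_self hNpos.ne', Real.log_one]; exact hR0.le)
  rw [← hx, ← hz]
  refine ⟨Γ, h1.trans ?_, fun y hy => ?_⟩
  · rw [hUc, div_self hNpos.ne', Real.log_one, zero_div, zero_add, mul_one, add_zero, hlA, hlB, AP.Wc]
    obtain ⟨m, hm⟩ : ∃ m : ℝ, m = min x z := ⟨_, rfl⟩
    have hm2 : Real.log 2 ≤ m := by rw [hm]; exact le_min hx2 hy2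
    have hmm : min (Real.log 2 + x) (Real.log 2 + z) = Real.log 2 + m := by rw [hm, min_add_add_left]
    rw [hmm, ← hm]
    have h6 : Real.log 2 ≤ Real.log (2 + m) := Real.log_le_log (by norm_num) (by linarith)
    have h8 : Real.log (1 + (Real.log 2 + m)) ≤ Real.log (2 + m) :=
      Real.log_le_log (by linarith) (by linarith)
    have h9 : 0 ≤ Real.log (1 + (Real.log 2 + m)) := Real.log_nonneg (by linarith)
    have h12 : (Real.log 2 + x) * (Real.log 2 + z) * (1 + Real.log (1 + (Real.log 2 + m))) ≤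
        (2 * x) * (2 * z) * (3 * Real.log (2 + m)) := by
      refine mul_le_mul (mul_le_mul (by linarith) (by linarith) (by linarith) (by linarith)) (by linarith)
        (by linarith) (by nlinarith)
    have h13 : Real.log 2 ^ 2 ≤ 2 * (x * z * Real.log (2 + m)) := by
      have h14 : Real.log 2 * Real.log 2 ≤ x * z := mul_le_mul hx2 hy2 (by linarith) (by linarith)
      have h15 : x * z * 0.5 ≤ x * z * Real.log (2 + m) := by
        apply mul_le_mul_of_nonneg_left (by linarith)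
        nlinarith
      nlinarith
    have h16 : Real.log 2 ^ 2 + (Real.log 2 + x) * (Real.log 2 + z) * (1 + Real.log (1 + (Real.log 2 + m))) ≤
        3000 * (x * z * Real.log (2 + m)) := by
      have h17 : 0 ≤ x * z * Real.log (2 + m) :=
        mul_nonneg (mul_nonneg (by linarith) (by linarith)) (by linarith)
      nlinarith
    calc C * (Real.log 2 ^ 2 + (Real.log 2 + x) * (Real.log 2 + z) * (1 + Real.log (1 + (Real.log 2 + m))))
        ≤ C * (3000 * (x * z * Real.log (2 + m))) := by gcongr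
      _ = 3000 * C * (x * z * Real.log (2 + m)) := by ring
  · obtain ⟨a₁, k1, a₂, k2, a₃, k3, a₄, k4, k5⟩ := h2 y fun g hg => (hy g hg).trans (by
      apply one_div_le_one_div_of_le (by positivity)
      nlinarith)
    exact ⟨a₁, k1, a₂, k2, a₃, k3, a₄, k4, k5⟩

/-- Corollary: the conclusion of Q1 for `A + B - A - B` if the density of `B` is bounded below. -/
theorem dense_partner (β₀ : ℝ) (hβ₀ : 0 < β₀) : ∃ C : ℝ, 1 ≤ C ∧ ∀ (N : ℕ), 0 < N → ∀ A B : Finset (ZMod N),
    A.Nonempty → B.Nonempty → (A.card : ℝ) / (N : ℝ) ≤ 1 / 2 → (B.card : ℝ) / (N : ℝ) ≤ 1 / 2 →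
    β₀ ≤ (B.card : ℝ) / (N : ℝ) →
    ∃ Γ : Finset (ZMod N), (Γ.card : ℝ) ≤ C * logDens A ∧ bohr Γ (1 / (C * logDens A)) ⊆ fourSum A B := by
  obtain ⟨C, hC, h⟩ := result
  obtain ⟨b, hb⟩ : ∃ b : ℝ, b = max 1 (Real.log (1 / β₀)) := ⟨_, rfl⟩
  have hb1 : 1 ≤ b := by rw [hb]; exact le_max_left _ _
  refine ⟨C * (4 * (b * Real.log (2 + b) + b)), ?_, ?_⟩
  · have : 0 ≤ b * Real.log (2 + b) := mul_nonneg (by linarith) (Real.log_nonneg (by linarith))
    nlinarith
  intro N hN A B hA hB hα hβ hββ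
  obtain ⟨Γ, h1, h2⟩ := h N hN A B hA hB hα hβ
  have hlog2 := Real.log_two_gt_d9
  obtain ⟨hx2, hNA⟩ := logDens_ge hN A hA hα
  obtain ⟨hy2, hNB⟩ := logDens_ge hN B hB hβ
  obtain ⟨x, hx⟩ : ∃ x : ℝ, x = logDens A := ⟨_, rfl⟩
  obtain ⟨z, hz⟩ : ∃ z : ℝ, z = logDens B := ⟨_, rfl⟩
  rw [← hx, ← hz] at h1 h2
  rw [← hx] at hx2 ⊢
  rw [← hz] at hy2
  have hBc : (0 : ℝ) < B.card := by exact_mod_cast hB.card_pos
  have hNpos : (0 : ℝ) < N := by exact_mod_cast hN
  have hzb : z ≤ b := by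
    rw [hz, hb, logDens]
    refine le_trans (Real.log_le_log (by positivity) ?_) (le_max_right _ _)
    rw [div_le_div_iff₀ hBc hβ₀, one_mul]
    rw [le_div_iff₀ hNpos] at hββ
    linarith
  have hx0 : 0 < x := by linarith
  have hz0 : 0 < z := by linarith
  have h3 : 0 ≤ Real.log (2 + min x z) := Real.log_nonneg (by
    have : 0 ≤ min x z := le_min hx0.le hz0.le
    linarith)
  have h4 : Real.log (2 + min x z) ≤ Real.log (2 + b) := by
    have h5 : 0 ≤ min x z := le_min hx0.le hz0.le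
    have h6 : min x z ≤ b := (min_le_right _ _).trans hzb
    exact Real.log_le_log (by linarith) (by linarith)
  have h5 : 0 ≤ Real.log (2 + b) := by linarith
  have h6 : 0 ≤ b * Real.log (2 + b) := mul_nonneg (by linarith) h5
  refine ⟨Γ, h1.trans ?_, fun y hy => h2 fun g hg => (hy g hg).trans ?_⟩
  · calc C * (x * z * Real.log (2 + min x z)) ≤ C * (x * b * Real.log (2 + b)) := by gcongr
      _ = C * (b * Real.log (2 + b)) * x := by ring
      _ ≤ C * (4 * (b * Real.log (2 + b) + b)) * x :=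
          mul_le_mul_of_nonneg_right (mul_le_mul_of_nonneg_left (by linarith) (by linarith)) hx0.le
  · apply one_div_le_one_div_of_le (by positivity)
    have h7 : x + z ≤ 4 * b * x := by nlinarith
    calc C * (x + z) ≤ C * (4 * b * x) := by gcongr
      _ = C * (4 * b) * x := by ring
      _ ≤ C * (4 * (b * Real.log (2 + b) + b)) * x :=
          mul_le_mul_of_nonneg_right (mul_le_mul_of_nonneg_left (by linarith) (by linarith)) hx0.le

end Pool.Agent.Results.MP_169871_nt.TwoSets
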